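import Pool.Agent.H96.JCT.Stmts

/-!
# Row FLA of the board `jct`: the jump at an interior point of a piece
-/

set_option autoImplicit false

namespace Pool.JCT

open Complex Set Topology Filter

/-- Points with second coordinate different from `0` are off the axis. -/
theorem fla_off_axis (Φ : Pl ≃ₜ Pl) (c d : ℝ) (p : Pl) (hp : (Φ p).2 ≠ 0) :
    Off (fun t => Φ.symm (t, 0)) c d p := by
  intro t _ h
  apply hp
  have h1 : Φ (Φ.symm (t, 0)) = Φ p := congrArg Φ h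
  rw [Homeomorph.apply_symm_apply] at h1
  rw [← h1]

theorem fla_cont_axis (Φ : Pl ≃ₜ Pl) : Continuous (fun t : ℝ => Φ.symm (t, 0)) :=
  Φ.symm.continuous.comp (by fun_prop)

theorem fla_cont_upp (Φ : Pl ≃ₜ Pl) (ε : ℝ) : Continuous (fun t : ℝ => Φ.symm (upp ε t)) := by
  refine Φ.symm.continuous.comp ?_
  unfold upp
  fun_prop

theorem fla_join (f : ℝ → Pl) (a b c : ℝ) (p : Pl) (h1 : Off f a b p) (h2 : Off f b c p) :
    Off f a c p := by
  intro t ht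
  rcases (uIcc_subset_uIcc_union_uIcc (a := a) (b := b) (c := c)) ht with h | h
  · exact h1 t h
  · exact h2 t h

/-- The increment over the middle part. -/
theorem fla_mid (hA : ADD_S) (hR : REP_S) (Φ : Pl ≃ₜ Pl) (f : ℝ → Pl) (hf : Continuous f)
    (ε s₁ s₂ : ℝ) (hε : 0 < ε) (h12 : s₁ < s₂)
    (hX : ∀ t ∈ Icc s₁ s₂, (Φ (f t)).2 = 0 ∧ (Φ (f t)).1 ∈ Icc (-ε) ε)
    (hends : (Φ (f s₁)).1 = -ε ∧ (Φ (f s₂)).1 = ε ∨ (Φ (f s₁)).1 = ε ∧ (Φ (f s₂)).1 = -ε) :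
    ∃ σ : ℤ, (σ = 1 ∨ σ = -1) ∧ ∀ p : Pl, (Φ p).2 ≠ 0 →
      Off f s₁ s₂ p ∧
      inc f s₁ s₂ p = (σ : ℂ) * inc (fun t => Φ.symm (t, 0)) (-ε) ε p := by
  have hcX : ContinuousOn (fun t => (Φ (f t)).1) (uIcc s₁ s₂) :=
    (continuous_fst.comp (Φ.continuous.comp hf)).continuousOn
  have hu : uIcc s₁ s₂ = Icc s₁ s₂ := uIcc_of_le h12.le
  have hfe : ∀ t ∈ uIcc s₁ s₂, f t = (fun t => Φ.symm (t, 0)) ((fun t => (Φ (f t)).1) t) := by
    intro t ht
    rw [hu] at ht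
    have h1 := (hX t ht).1
    show f t = Φ.symm ((Φ (f t)).1, 0)
    rw [← h1]
    exact (Φ.symm_apply_apply (f t)).symm
  have hoff : ∀ p : Pl, (Φ p).2 ≠ 0 → Off f s₁ s₂ p := by
    intro p hp t ht h
    rw [hu] at ht
    apply hp
    rw [← h]
    exact (hX t ht).1
  rcases hends with ⟨e1, e2⟩ | ⟨e1, e2⟩
  · refine ⟨1, Or.inl rfl, fun p hp => ⟨hoff p hp, ?_⟩⟩
    have h := hR (fun t => Φ.symm (t, 0)) f (fun t => (Φ (f t)).1) s₁ s₂ (-ε) ε p
      (fla_cont_axis Φ) hf hcX (fun t ht => by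
        rw [hu] at ht
        rw [uIcc_of_le (by linarith)]
        exact (hX t ht).2) e1 e2 hfe (fla_off_axis Φ _ _ p hp)
    rw [h]
    push_cast
    ring
  · refine ⟨-1, Or.inr rfl, fun p hp => ⟨hoff p hp, ?_⟩⟩
    have h := hR (fun t => Φ.symm (t, 0)) f (fun t => (Φ (f t)).1) s₁ s₂ ε (-ε) p
      (fla_cont_axis Φ) hf hcX (fun t ht => by
        rw [hu] at ht
        rw [uIcc_of_ge (by linarith)]
        exact (hX t ht).2) e1 e2 hfe (fla_off_axis Φ _ _ p hp)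
    have h2 := (hA (fun t => Φ.symm (t, 0)) p (fla_cont_axis Φ)).2.1 (-ε) ε
      (fla_off_axis Φ _ _ p hp)
    rw [h, h2]
    push_cast
    ring

theorem fla_thm (_h1 : INC_S) (hA : ADD_S) (hC : CPT_S) (hR : REP_S) (hJ : JMP_S)
    (hS : SEL_S) : FLA_S := by
  intro Φ U f a b s hU hf hinj hab has hsb hsU hs0 haxis
  obtain ⟨ε, s₁, s₂, hε, ha1, h1s, hs2, h2b, hX, hends⟩ :=
    hS Φ U f a b s hU hf hinj hab has hsb hsU hs0 haxis
  obtain ⟨σ, hσ, hmid⟩ := fla_mid hA hR Φ f hf ε s₁ s₂ hε (h1s.trans hs2) hX hends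
  obtain ⟨D, hD, hjmp⟩ := hJ Φ.symm
  have hsI : s ∈ Icc (0 : ℝ) 1 := hab ⟨has.le, hsb.le⟩
  have ho1 : Off f a s₁ (f s) := by
    intro t ht h
    rw [uIcc_of_le ha1.le] at ht
    have h2 := hinj (hab ⟨ht.1, by linarith [ht.2]⟩) hsI h
    linarith [ht.2]
  have ho3 : Off f s₂ b (f s) := by
    intro t ht h
    rw [uIcc_of_le h2b.le] at ht
    have h2 := hinj (hab ⟨by linarith [ht.1], ht.2⟩) hsI h
    linarith [ht.1]
  have ho2 : Off (fun t => Φ.symm (upp ε t)) 0 Real.pi (f s) := by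
    intro t _ h
    have h2 : Φ (Φ.symm (upp ε t)) = Φ (f s) := congrArg Φ h
    rw [Homeomorph.apply_symm_apply, hs0] at h2
    have h3 : -(ε * Real.cos t) = 0 := congrArg Prod.fst h2
    have h4 : ε * Real.sin t = 0 := congrArg Prod.snd h2
    have h5 := Real.sin_sq_add_cos_sq t
    have h6 : Real.cos t = 0 := by
      rcases mul_eq_zero.1 (neg_eq_zero.1 h3) with h | h
      · exact absurd h hε.ne'
      · exact h
    have h7 : Real.sin t = 0 := by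
      rcases mul_eq_zero.1 h4 with h | h
      · exact absurd h hε.ne'
      · exact h
    rw [h6, h7] at h5
    norm_num at h5
  obtain ⟨c1, c1'⟩ := hC f a s₁ (f s) hf ho1
  obtain ⟨c3, c3'⟩ := hC f s₂ b (f s) hf ho3
  obtain ⟨_, c2'⟩ := hC (fun t => Φ.symm (upp ε t)) 0 Real.pi (f s) (fla_cont_upp Φ ε) ho2
  have hdisc : ∀ᶠ p in 𝓝 (f s), Disc ε (Φ p) := by
    have hc : Continuous (fun p : Pl => (Φ p).1 ^ 2 + (Φ p).2 ^ 2) := by
      have := Φ.continuous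
      fun_prop
    have h0 : (fun p : Pl => (Φ p).1 ^ 2 + (Φ p).2 ^ 2) (f s) < ε ^ 2 := by
      show (Φ (f s)).1 ^ 2 + (Φ (f s)).2 ^ 2 < ε ^ 2
      rw [hs0]
      have h1 : 0 < ε ^ 2 := pow_pos hε 2
      show (0 : ℝ) ^ 2 + (0 : ℝ) ^ 2 < ε ^ 2
      linarith
    exact (hc.tendsto (f s)).eventually (gt_mem_nhds h0)
  refine ⟨σ * D, ?_, ?_⟩
  · rcases hσ with rfl | rfl <;> rcases hD with rfl | rfl <;> norm_num
  intro η hη
  have hη6 : 0 < η / 6 := by linarith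
  have n1 := (Metric.tendsto_nhds.1 c1') (η / 6) hη6
  have n2 := (Metric.tendsto_nhds.1 c2') (η / 6) hη6
  have n3 := (Metric.tendsto_nhds.1 c3') (η / 6) hη6
  have hall := c1.and (c3.and (n1.and (n2.and (n3.and hdisc))))
  refine ⟨_, hall, ?_⟩
  intro p hp q hq hp2 hq2
  obtain ⟨p1, p3, pn1, pn2, pn3, pd⟩ := hp
  obtain ⟨q1, q3, qn1, qn2, qn3, qd⟩ := hq
  obtain ⟨pm, pe⟩ := hmid p hp2.ne'
  obtain ⟨qm, qe⟩ := hmid q hq2.ne
  have hj := hjmp ε hε (Φ p) (Φ q) pd qd hp2 hq2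
  rw [Φ.symm_apply_apply, Φ.symm_apply_apply] at hj
  have pa := (hA f p hf).2.2.1
  have qa := (hA f q hf).2.2.1
  have po := fla_join f a s₁ s₂ p p1 pm
  have qo := fla_join f a s₁ s₂ q q1 qm
  have ps : inc f a b p = inc f a s₁ p + inc f s₁ s₂ p + inc f s₂ b p := by
    rw [pa a s₁ s₂ p1 pm, pa a s₂ b po p3]
  have qs : inc f a b q = inc f a s₁ q + inc f s₁ s₂ q + inc f s₂ b q := by
    rw [qa a s₁ s₂ q1 qm, qa a s₂ b qo q3]
  refine ⟨fla_join f a s₂ b p po p3, fla_join f a s₂ b q qo q3, ?_⟩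
  rw [dist_eq_norm] at pn1 pn2 pn3 qn1 qn2 qn3
  have key : inc f a b p - inc f a b q - ((σ * D : ℤ) : ℂ) * tpi =
      ((inc f a s₁ p - inc f a s₁ (f s)) - (inc f a s₁ q - inc f a s₁ (f s))) +
      (σ : ℂ) * ((inc (fun t => Φ.symm (upp ε t)) 0 Real.pi p -
          inc (fun t => Φ.symm (upp ε t)) 0 Real.pi (f s)) -
        (inc (fun t => Φ.symm (upp ε t)) 0 Real.pi q -
          inc (fun t => Φ.symm (upp ε t)) 0 Real.pi (f s))) +
      ((inc f s₂ b p - inc f s₂ b (f s)) - (inc f s₂ b q - inc f s₂ b (f s))) := by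
    rw [ps, qs, pe, qe]
    push_cast
    linear_combination (σ : ℂ) * hj
  rw [key]
  have hσn : ‖(σ : ℂ)‖ = 1 := by
    rcases hσ with rfl | rfl <;> simp
  have b1 : ‖(inc f a s₁ p - inc f a s₁ (f s)) - (inc f a s₁ q - inc f a s₁ (f s))‖ < η / 3 :=
    (norm_sub_le _ _).trans_lt (by linarith)
  have b3 : ‖(inc f s₂ b p - inc f s₂ b (f s)) - (inc f s₂ b q - inc f s₂ b (f s))‖ < η / 3 :=
    (norm_sub_le _ _).trans_lt (by linarith)
  have b2 : ‖(σ : ℂ) * ((inc (fun t => Φ.symm (upp ε t)) 0 Real.pi p -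
          inc (fun t => Φ.symm (upp ε t)) 0 Real.pi (f s)) -
        (inc (fun t => Φ.symm (upp ε t)) 0 Real.pi q -
          inc (fun t => Φ.symm (upp ε t)) 0 Real.pi (f s)))‖ < η / 3 := by
    rw [norm_mul, hσn, one_mul]
    exact (norm_sub_le _ _).trans_lt (by linarith)
  refine (norm_add_le _ _).trans_lt ?_
  have := norm_add_le ((inc f a s₁ p - inc f a s₁ (f s)) - (inc f a s₁ q - inc f a s₁ (f s)))
    ((σ : ℂ) * ((inc (fun t => Φ.symm (upp ε t)) 0 Real.pi p -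
          inc (fun t => Φ.symm (upp ε t)) 0 Real.pi (f s)) -
        (inc (fun t => Φ.symm (upp ε t)) 0 Real.pi q -
          inc (fun t => Φ.symm (upp ε t)) 0 Real.pi (f s))))
  linarith

end Pool.JCT
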